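import Mathlib

set_option autoImplicit false

namespace Pool.Agent.Q117.Mono

/-- Words `0`, `x^a`, `x^a y (x^j y)^i x^b` (normal forms; `i <= j` for the non-zero products). -/
inductive M : Type
  | z : M
  | X (a : ℕ) : M
  | G (a j i b : ℕ) : M
  deriving DecidableEq

namespace M

def mul : M → M → M
  | z, _ => z
  | _, z => z
  | X a, X b => X (a + b)
  | X a, G c j i d => G (a + c) j i d
  | G a j i b, X c => G a j i (b + c)
  | G a j i b, G c j' i' d =>
      if (i = 0 ∨ j = b + c) ∧ (i' = 0 ∨ j' = b + c) ∧ i + i' + 1 ≤ b + c then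
        G a (b + c) (i + i' + 1) d else z

instance : Mul M := ⟨mul⟩
instance : One M := ⟨X 0⟩

@[simp] theorem z_mul (m : M) : z * m = z := by cases m <;> rfl
@[simp] theorem mul_z (m : M) : m * z = z := by cases m <;> rfl
@[simp] theorem X_mul_X (a b : ℕ) : X a * X b = X (a + b) := rfl
@[simp] theorem X_mul_G (a c j i d : ℕ) : X a * G c j i d = G (a + c) j i d := rfl
@[simp] theorem G_mul_X (a j i b c : ℕ) : G a j i b * X c = G a j i (b + c) := rfl
theorem G_mul_G (a j i b c j' i' d : ℕ) : G a j i b * G c j' i' d =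
    if (i = 0 ∨ j = b + c) ∧ (i' = 0 ∨ j' = b + c) ∧ i + i' + 1 ≤ b + c then
        G a (b + c) (i + i' + 1) d else z := rfl
theorem one_def : (1 : M) = X 0 := rfl

theorem mul_assoc' (p q r : M) : p * q * r = p * (q * r) := by
  cases p with
  | z => simp
  | X a =>
    cases q with
    | z => simp
    | X b =>
      cases r with
      | z => simp
      | X c => simp [Nat.add_assoc]
      | G c j i d => simp [Nat.add_assoc]
    | G b j i c =>
      cases r with
      | z => simp
      | X d => simp
      | G d j' i' e =>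
        simp only [X_mul_G, G_mul_G]
        split_ifs <;> simp
  | G a j i b =>
    cases q with
    | z => simp
    | X c =>
      cases r with
      | z => simp
      | X d => simp [Nat.add_assoc]
      | G d j' i' e =>
        simp only [G_mul_X, X_mul_G, G_mul_G, Nat.add_assoc]
    | G c j' i' d =>
      cases r with
      | z => simp
      | X e =>
        simp only [G_mul_X, G_mul_G]
        split_ifs <;> simp
      | G e j'' i'' f =>
        simp only [G_mul_G]
        by_cases h1 : (i = 0 ∨ j = b + c) ∧ (i' = 0 ∨ j' = b + c) ∧ i + i' + 1 ≤ b + c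
        · rw [if_pos h1]
          by_cases h2 : (i' = 0 ∨ j' = d + e) ∧ (i'' = 0 ∨ j'' = d + e) ∧ i' + i'' + 1 ≤ d + e
          · rw [if_pos h2, G_mul_G, G_mul_G]
            by_cases h3 : (i + i' + 1 = 0 ∨ b + c = d + e) ∧ (i'' = 0 ∨ j'' = d + e) ∧
              i + i' + 1 + i'' + 1 ≤ d + e
            · rw [if_pos h3, if_pos (by omega)]
              congr 1 <;> omega
            · rw [if_neg h3, if_neg (by omega)]
          · rw [if_neg h2, G_mul_G, if_neg (by omega)]
            simp
        · rw [if_neg h1]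
          by_cases h2 : (i' = 0 ∨ j' = d + e) ∧ (i'' = 0 ∨ j'' = d + e) ∧ i' + i'' + 1 ≤ d + e
          · rw [if_pos h2, G_mul_G, if_neg (by omega)]
            simp
          · rw [if_neg h2]; simp

instance : Monoid M where
  mul_assoc := mul_assoc'
  one_mul m := by
    rw [one_def]
    cases m <;> simp
  mul_one m := by
    rw [one_def]
    cases m <;> simp

/-- the words all of whose exponents are at most `p` -/
def ball (p : ℕ) : Set M := {m | m = z ∨ (∃ a ≤ p, m = X a) ∨
  ∃ a ≤ p, ∃ j ≤ p, ∃ i, i + 1 ≤ p ∧ ∃ b ≤ p, m = G a j i b}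

theorem mul_mem_ball {p q : ℕ} {m n : M} (hm : m ∈ ball p) (hn : n ∈ ball q) :
    m * n ∈ ball (p + q) := by
  rcases hm with rfl | ⟨a, ha, rfl⟩ | ⟨a, ha, j, hj, i, hi, b, hb, rfl⟩
  · left; simp
  · rcases hn with rfl | ⟨c, hc, rfl⟩ | ⟨c, hc, j', hj', i', hi', d, hd, rfl⟩
    · left; simp
    · right; left; exact ⟨a + c, by omega, rfl⟩
    · right; right
      exact ⟨a + c, by omega, j', by omega, i', by omega, d, by omega, rfl⟩
  · rcases hn with rfl | ⟨c, hc, rfl⟩ | ⟨c, hc, j', hj', i', hi', d, hd, rfl⟩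
    · left; simp
    · right; right
      exact ⟨a, by omega, j, by omega, i, by omega, b + c, by omega, rfl⟩
    · rw [G_mul_G]
      split_ifs with h
      · right; right
        exact ⟨a, by omega, b + c, by omega, i + i' + 1, by omega, d, by omega, rfl⟩
      · left; rfl

theorem ball_finite_card (p : ℕ) : ∃ S : Finset M, (∀ m ∈ ball p, m ∈ S) ∧
    S.card ≤ 3 * (p + 1) ^ 4 := by
  classical
  refine ⟨{z} ∪ (Finset.range (p + 1)).image X ∪
    ((Finset.range (p + 1) ×ˢ Finset.range (p + 1)) ×ˢ
      (Finset.range (p + 1) ×ˢ Finset.range (p + 1))).image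
      (fun t => G t.1.1 t.1.2 t.2.1 t.2.2), ?_, ?_⟩
  · rintro m (rfl | ⟨a, ha, rfl⟩ | ⟨a, ha, j, hj, i, hi, b, hb, rfl⟩)
    · simp
    · simp; omega
    · simp only [Finset.mem_union, Finset.mem_image]
      right
      refine ⟨((a, j), (i, b)), ?_, rfl⟩
      simp only [Finset.mem_product, Finset.mem_range]
      omega
  · refine (Finset.card_union_le _ _).trans ?_
    have h1 : (({z} : Finset M) ∪ (Finset.range (p + 1)).image X).card ≤ 1 + (p + 1) := by
      refine (Finset.card_union_le _ _).trans ?_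
      have := Finset.card_image_le (s := Finset.range (p + 1)) (f := X)
      simp only [Finset.card_range] at this
      simp only [Finset.card_singleton]
      omega
    have h2 : (((Finset.range (p + 1) ×ˢ Finset.range (p + 1)) ×ˢ
      (Finset.range (p + 1) ×ˢ Finset.range (p + 1))).image
      (fun t => G t.1.1 t.1.2 t.2.1 t.2.2)).card ≤ (p + 1) ^ 4 := by
      refine Finset.card_image_le.trans ?_
      simp only [Finset.card_product, Finset.card_range]
      apply le_of_eq; ring
    have h3 : 1 + (p + 1) ≤ 2 * (p + 1) ^ 4 := by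
      have : p + 1 ≤ (p + 1) ^ 4 := Nat.le_self_pow (by norm_num) _
      have h4 : 1 ≤ (p + 1) ^ 4 := Nat.one_le_pow _ _ (by omega)
      omega
    omega

end M

open M

/-- the ambient algebra -/
abbrev T := MonoidAlgebra ℚ M

noncomputable def e (m : M) : T := MonoidAlgebra.single m 1

theorem e_mul (m n : M) : e m * e n = e (m * n) := by
  simp [e, MonoidAlgebra.single_mul_single]

theorem one_eq : (1 : T) = e 1 := rfl

theorem e_inj {m n : M} (h : e m = e n) : m = n := by
  exact (MonoidAlgebra.single_left_inj (one_ne_zero (α := ℚ))).1 h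

/-- the subalgebra generated by `x` and `y` -/
noncomputable def A : Subalgebra ℚ T := Algebra.adjoin ℚ {e (X 1), e (G 0 0 0 0)}

noncomputable def x : A := ⟨e (X 1), Algebra.subset_adjoin (by simp)⟩
noncomputable def y : A := ⟨e (G 0 0 0 0), Algebra.subset_adjoin (by simp)⟩

noncomputable def V : Submodule ℚ A := Submodule.span ℚ {1, x, y}

theorem adjoin_xy : Algebra.adjoin ℚ ({x, y} : Set A) = ⊤ := by
  have h := Algebra.adjoin_adjoin_coe_preimage (R := ℚ) (s := ({e (X 1), e (G 0 0 0 0)} : Set T))
  have h2 : ((↑) : A → T) ⁻¹' ({e (X 1), e (G 0 0 0 0)} : Set T) = {x, y} := by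
    ext a
    simp only [Set.mem_preimage, Set.mem_insert_iff, Set.mem_singleton_iff, x, y, Subtype.ext_iff]
  rw [← h2]
  exact h

theorem finiteType : Algebra.FiniteType ℚ A := by
  refine ⟨⟨{x, y}, ?_⟩⟩
  simpa using adjoin_xy

theorem one_mem_V : (1 : A) ∈ V := Submodule.subset_span (by simp)

theorem adjoin_V : Algebra.adjoin ℚ (V : Set A) = ⊤ := by
  rw [eq_top_iff, ← adjoin_xy]
  apply Algebra.adjoin_mono
  rintro a (rfl | rfl)
  · exact Submodule.subset_span (by simp)
  · exact Submodule.subset_span (by simp)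

theorem finV : FiniteDimensional ℚ V :=
  FiniteDimensional.span_of_finite ℚ (by
    exact (Set.finite_singleton y).insert x |>.insert 1)

theorem mem_supported_of_pow (n : ℕ) (v : A) (hv : v ∈ V ^ n) :
    (v : T) ∈ Submodule.span ℚ (e '' ball n) := by
  induction n generalizing v with
  | zero =>
    rw [pow_zero, Submodule.mem_one] at hv
    obtain ⟨c, rfl⟩ := hv
    have : ((algebraMap ℚ A c : A) : T) = c • e (X 0) := by
      rw [Subalgebra.coe_algebraMap, Algebra.algebraMap_eq_smul_one, one_eq]
      rfl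
    rw [this]
    apply Submodule.smul_mem
    apply Submodule.subset_span
    exact ⟨X 0, Or.inr (Or.inl ⟨0, le_refl _, rfl⟩), rfl⟩
  | succ n ih =>
    rw [pow_succ] at hv
    induction hv using Submodule.mul_induction_on' with
    | mem_mul_mem a ha b hb =>
      have h1 := ih a ha
      have h2 : (b : T) ∈ Submodule.span ℚ (e '' ball 1) := by
        unfold V at hb
        induction hb using Submodule.span_induction with
        | mem c hc =>
          rcases hc with rfl | rfl | rfl
          · exact Submodule.subset_span ⟨X 0, Or.inr (Or.inl ⟨0, by omega, rfl⟩), rfl⟩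
          · exact Submodule.subset_span ⟨X 1, Or.inr (Or.inl ⟨1, le_refl _, rfl⟩), rfl⟩
          · exact Submodule.subset_span ⟨G 0 0 0 0, Or.inr (Or.inr
              ⟨0, by omega, 0, by omega, 0, by omega, 0, by omega, rfl⟩), rfl⟩
        | zero => exact Submodule.zero_mem _
        | add c d _ _ h1 h2 => exact Submodule.add_mem _ h1 h2
        | smul r c _ h => exact Submodule.smul_mem _ r h
      have h3 : (a : T) * (b : T) ∈ Submodule.span ℚ (e '' ball n) *
          Submodule.span ℚ (e '' ball 1) := Submodule.mul_mem_mul h1 h2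
      rw [Submodule.span_mul_span] at h3
      refine Submodule.span_mono ?_ h3
      rintro _ ⟨_, ⟨m, hm, rfl⟩, _, ⟨m', hm', rfl⟩, rfl⟩
      exact ⟨m * m', mul_mem_ball hm hm', (e_mul m m').symm⟩
    | add a _ b _ h1 h2 => exact Submodule.add_mem _ h1 h2

theorem growth (n : ℕ) : Module.finrank ℚ ↥(V ^ n) ≤ 3 * (n + 1) ^ 4 := by
  classical
  obtain ⟨S, hS, hcard⟩ := ball_finite_card n
  set W : Submodule ℚ T := Submodule.span ℚ ((S.image e : Finset T) : Set T) with hW
  have hfinW : FiniteDimensional ℚ W := FiniteDimensional.span_finset ℚ _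
  let f : ↥(V ^ n) →ₗ[ℚ] W :=
    { toFun := fun v => ⟨((v : A) : T), by
        have := mem_supported_of_pow n v v.2
        refine Submodule.span_mono ?_ this
        rintro _ ⟨m, hm, rfl⟩
        simp only [Finset.coe_image]
        exact ⟨m, hS m hm, rfl⟩⟩
      map_add' := fun a b => rfl
      map_smul' := fun a b => rfl }
  have hf : Function.Injective f := by
    intro a b h
    have := congrArg (fun w : W => (w : T)) h
    exact Subtype.ext (Subtype.ext this)
  refine (LinearMap.finrank_le_finrank_of_injective hf).trans ?_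
  refine (finrank_span_finset_le_card _).trans ?_
  exact Finset.card_image_le.trans hcard

/-- span of the words with at least `m` gaps `j` -/
noncomputable def S (j m : ℕ) : Submodule ℚ T :=
  Submodule.span ℚ {t | ∃ a i b, m ≤ i ∧ i ≤ j ∧ t = e (G a j i b) - e z}

theorem e_mul_mem_S {j m : ℕ} (hm : 1 ≤ m) (w : M) {t : T} (ht : t ∈ S j m) :
    e w * t ∈ S j m := by
  unfold S at ht
  induction ht using Submodule.span_induction with
  | mem t ht =>
    obtain ⟨a, i, b, hmi, hij, rfl⟩ := ht
    rw [mul_sub, e_mul, e_mul, M.mul_z]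
    cases w with
    | z => simp
    | X c => exact Submodule.subset_span ⟨c + a, i, b, hmi, hij, rfl⟩
    | G c j' i' d =>
      rw [G_mul_G]
      split_ifs with h
      · have hj : j = d + a := by omega
        refine Submodule.subset_span ⟨c, i' + i + 1, b, by omega, by omega, ?_⟩
        rw [← hj]
      · simp
  | zero => simp
  | add a b _ _ h1 h2 => rw [mul_add]; exact Submodule.add_mem _ h1 h2
  | smul r c _ h => rw [mul_smul_comm]; exact Submodule.smul_mem _ r h

theorem mem_S_mul_e {j m : ℕ} (hm : 1 ≤ m) (w : M) {t : T} (ht : t ∈ S j m) :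
    t * e w ∈ S j m := by
  unfold S at ht
  induction ht using Submodule.span_induction with
  | mem t ht =>
    obtain ⟨a, i, b, hmi, hij, rfl⟩ := ht
    rw [sub_mul, e_mul, e_mul, M.z_mul]
    cases w with
    | z => simp
    | X c => exact Submodule.subset_span ⟨a, i, b + c, hmi, hij, rfl⟩
    | G c j' i' d =>
      rw [G_mul_G]
      split_ifs with h
      · have hj : j = b + c := by omega
        refine Submodule.subset_span ⟨a, i + i' + 1, d, by omega, by omega, ?_⟩
        rw [← hj]
      · simp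
  | zero => simp
  | add a b _ _ h1 h2 => rw [add_mul]; exact Submodule.add_mem _ h1 h2
  | smul r c _ h => rw [smul_mul_assoc]; exact Submodule.smul_mem _ r h

theorem mem_top (t : T) : t ∈ Submodule.span ℚ (Set.range e) := by
  induction t using MonoidAlgebra.induction_on with
  | of m => exact Submodule.subset_span ⟨m, rfl⟩
  | add f g hf hg => exact Submodule.add_mem _ hf hg
  | smul r f hf => exact Submodule.smul_mem _ r hf

theorem mul_mem_S {j m : ℕ} (hm : 1 ≤ m) (s : T) {t : T} (ht : t ∈ S j m) :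
    s * t ∈ S j m := by
  have hs := mem_top s
  induction hs using Submodule.span_induction with
  | mem s hs => obtain ⟨w, rfl⟩ := hs; exact e_mul_mem_S hm w ht
  | zero => simp
  | add a b _ _ h1 h2 => rw [add_mul]; exact Submodule.add_mem _ h1 h2
  | smul r c _ h => rw [smul_mul_assoc]; exact Submodule.smul_mem _ r h

theorem mem_S_mul {j m : ℕ} (hm : 1 ≤ m) (s : T) {t : T} (ht : t ∈ S j m) :
    t * s ∈ S j m := by
  have hs := mem_top s
  induction hs using Submodule.span_induction with
  | mem s hs => obtain ⟨w, rfl⟩ := hs; exact mem_S_mul_e hm w ht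
  | zero => simp
  | add a b _ _ h1 h2 => rw [mul_add]; exact Submodule.add_mem _ h1 h2
  | smul r c _ h => rw [mul_smul_comm]; exact Submodule.smul_mem _ r h

theorem S_mul_S {j m m' : ℕ} {s t : T} (hs : s ∈ S j m) (ht : t ∈ S j m') (hm : 1 ≤ m)
    (hm' : 1 ≤ m') : s * t ∈ S j (m + m') := by
  have h : s * t ∈ S j m * S j m' := Submodule.mul_mem_mul hs ht
  unfold S at h
  rw [Submodule.span_mul_span] at h
  refine Submodule.span_le.2 ?_ h
  rintro _ ⟨_, ⟨a, i, b, hmi, hij, rfl⟩, _, ⟨c, i', d, hmi', hij', rfl⟩, rfl⟩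
  simp only [SetLike.mem_coe]
  rw [mul_sub, sub_mul, sub_mul, e_mul, e_mul, e_mul, e_mul, M.mul_z, M.z_mul, M.z_mul, sub_self,
    sub_zero, G_mul_G]
  split_ifs with h
  · have hj : j = b + c := by omega
    refine Submodule.subset_span ⟨a, i + i' + 1, d, by omega, by omega, ?_⟩
    rw [← hj]
  · simp

theorem S_eq_bot (j : ℕ) {t : T} (ht : t ∈ S j (j + 1)) : t = 0 := by
  unfold S at ht
  have : {t : T | ∃ a i b, j + 1 ≤ i ∧ i ≤ j ∧ t = e (G a j i b) - e z} = ∅ := by
    ext t
    simp only [Set.mem_ofPred_eq, Set.mem_empty_iff_false, iff_false]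
    rintro ⟨a, i, b, h1, h2, _⟩
    omega
  rw [this] at ht
  simpa using ht

/-- the ideal generated by `y x^j y` (minus the zero word) -/
noncomputable def I (j : ℕ) : TwoSidedIdeal A :=
  TwoSidedIdeal.mk' {a | (a : T) ∈ S j 1} (by simp)
    (fun {a b} (ha : (a : T) ∈ S j 1) (hb : (b : T) ∈ S j 1) =>
      (Submodule.add_mem (S j 1) ha hb : (a : T) + (b : T) ∈ S j 1))
    (fun {a} (ha : (a : T) ∈ S j 1) => (Submodule.neg_mem (S j 1) ha : -(a : T) ∈ S j 1))
    (fun {a b} hb => mul_mem_S (le_refl _) (a : T) hb)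
    (fun {a b} ha => mem_S_mul (le_refl _) (b : T) ha)

theorem mem_I (j : ℕ) (a : A) : a ∈ I j ↔ (a : T) ∈ S j 1 := by
  unfold I
  rw [TwoSidedIdeal.mem_mk']
  rfl

theorem prod_mem_S (j : ℕ) (l : List A) (hl : ∀ a ∈ l, a ∈ I j) (hne : l ≠ []) :
    ((l.prod : A) : T) ∈ S j l.length := by
  induction l with
  | nil => exact absurd rfl hne
  | cons a l ih =>
    by_cases h : l = []
    · subst h
      have := (mem_I j a).1 (hl a (by simp))
      simpa using this
    · have h1 := ih (fun b hb => hl b (by simp [hb])) h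
      have h2 := (mem_I j a).1 (hl a (by simp))
      have hlen : 1 ≤ l.length := by
        rcases l with _ | ⟨b, l⟩
        · exact absurd rfl h
        · simp
      have h3 := S_mul_S h2 h1 (le_refl _) hlen
      simpa [Nat.add_comm] using h3

theorem I_nilpotent (j : ℕ) : ∃ m : ℕ, ∀ f : Fin m → A, (∀ i, f i ∈ I j) →
    (List.ofFn f).prod = 0 := by
  refine ⟨j + 1, fun f hf => ?_⟩
  have h := prod_mem_S j (List.ofFn f) (by
    intro a ha
    rw [List.mem_ofFn] at ha
    obtain ⟨i, rfl⟩ := ha
    exact hf i) (by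
      intro h
      have := congrArg List.length h
      simp at this)
  rw [List.length_ofFn] at h
  have := S_eq_bot j h
  exact Subtype.ext this

theorem x_pow (n : ℕ) : ((x ^ n : A) : T) = e (X n) := by
  induction n with
  | zero => rfl
  | succ n ih =>
    rw [pow_succ]
    change ((x ^ n : A) : T) * (x : T) = _
    rw [ih]
    change e (X n) * e (X 1) = _
    rw [e_mul, X_mul_X]

/-- the element `(y x^j y - y^2) x^j` -/
noncomputable def v (j : ℕ) : A := (y * x ^ j * y - y * y) * x ^ j

theorem v_coe (j : ℕ) (hj : 1 ≤ j) : ((v j : A) : T) = e (G 0 j 1 j) - e z := by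
  change ((y : T) * ((x ^ j : A) : T) * (y : T) - (y : T) * (y : T)) * ((x ^ j : A) : T) = _
  rw [x_pow]
  change (e (G 0 0 0 0) * e (X j) * e (G 0 0 0 0) - e (G 0 0 0 0) * e (G 0 0 0 0)) * e (X j) = _
  rw [e_mul, e_mul, e_mul, sub_mul, e_mul, e_mul, G_mul_X, G_mul_G, G_mul_G]
  rw [if_pos (by omega), if_neg (by omega)]
  simp

theorem v_mem (j : ℕ) (hj : 1 ≤ j) : v j ∈ I j := by
  rw [mem_I, v_coe j hj]
  exact Submodule.subset_span ⟨0, 1, j, le_refl _, hj, rfl⟩

theorem v_pow (j k : ℕ) (hk : 2 * k + 1 ≤ j) : ((v j ^ (k + 1) : A) : T) =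
    e (G 0 j (2 * k + 1) j) - e z := by
  induction k with
  | zero => simpa using v_coe j (by omega)
  | succ k ih =>
    rw [pow_succ]
    change ((v j ^ (k + 1) : A) : T) * ((v j : A) : T) = _
    rw [ih (by omega), v_coe j (by omega), mul_sub, sub_mul, sub_mul, e_mul, e_mul, e_mul, e_mul,
      M.mul_z, M.z_mul, M.z_mul, sub_self, sub_zero, G_mul_G, if_pos (by omega)]
    have h1 : j + 0 = j := by omega
    have h2 : 2 * k + 1 + 1 + 1 = 2 * (k + 1) + 1 := by omega
    rw [h1, h2]

theorem v_pow_ne (j k : ℕ) (hk : 2 * k + 1 ≤ j) : v j ^ (k + 1) ≠ 0 := by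
  intro h
  have h1 := v_pow j k hk
  rw [h] at h1
  have h2 : e (G 0 j (2 * k + 1) j) = e z := by
    have : (0 : T) = e (G 0 j (2 * k + 1) j) - e z := h1
    exact (sub_eq_zero.1 this.symm)
  exact absurd (e_inj h2) (by simp)

theorem no_greatest : ¬ ∃ N : TwoSidedIdeal A,
        (∃ m : ℕ, ∀ f : Fin m → A, (∀ i, f i ∈ N) → (List.ofFn f).prod = 0) ∧
        ∀ I : TwoSidedIdeal A,
          (∃ m : ℕ, ∀ f : Fin m → A, (∀ i, f i ∈ I) → (List.ofFn f).prod = 0) → I ≤ N := by
  rintro ⟨N, ⟨m, hm⟩, hN⟩
  have hv : v (2 * m + 1) ∈ N := hN _ (I_nilpotent (2 * m + 1)) (v_mem _ (by omega))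
  have h := hm (fun _ => v (2 * m + 1)) (fun _ => hv)
  rw [List.ofFn_const, List.prod_replicate] at h
  have h2 := v_pow_ne (2 * m + 1) m (by omega)
  apply h2
  rw [pow_succ, h, zero_mul]

end Pool.Agent.Q117.Mono
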